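import Pool.Agent.Lib.MP_28303a_al.TW.H72.Sect

/-! # GR -/

set_option autoImplicit false
set_option linter.unusedSectionVars false
set_option linter.unusedVariables false

namespace Pool.Agent.NegK.TW.H72

universe u v w

open Matrix MonoidAlgebra

theorem gr (h1 : GinvStatement.{u}) : GrStatement.{u} := by
  classical
  intro S k Γ D _ _ _ J _ _ dg β hβ hgr
  obtain ⟨γ, hb1, hb2⟩ := exists_inv hβ
  have hγ : Grd dg dg γ := h1 _ Γ D J J dg dg β γ hb1 hb2 hgr
  obtain ⟨ρ, g, hg, hρ, hρρ⟩ := exists_od (Γ := Γ) dg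
  set P := dgm (LaurentPolynomial k) (fun j => (g j)⁻¹) with hP
  set Q := dgm (LaurentPolynomial k) g with hQ
  have hPQ : P * Q = 1 := dgm_inv_mul g
  have hQP : Q * P = 1 := dgm_mul_inv g
  have hgi : ∀ j, (g j)⁻¹ • dg j = dg (ρ j) := fun j => by rw [← hg j, inv_smul_smul]
  -- the conjugated matrices
  have hβ' : Grd (fun j => dg (ρ j)) (fun j => dg (ρ j)) (P * β * Q) :=
    grd_conj hgi (fun j => (inv_inv _).symm) hgr
  have hγ' : Grd (fun j => dg (ρ j)) (fun j => dg (ρ j)) (P * γ * Q) :=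
    grd_conj hgi (fun j => (inv_inv _).symm) hγ
  have hm1 : (P * β * Q) * (P * γ * Q) = 1 := by
    calc (P * β * Q) * (P * γ * Q) = P * β * (Q * P) * γ * Q := by simp only [Matrix.mul_assoc]
      _ = 1 := by rw [hQP, Matrix.mul_one, Matrix.mul_assoc P β γ, hb1, Matrix.mul_one, hPQ]
  have hm2 : (P * γ * Q) * (P * β * Q) = 1 := by
    calc (P * γ * Q) * (P * β * Q) = P * γ * (Q * P) * β * Q := by simp only [Matrix.mul_assoc]
      _ = 1 := by rw [hQP, Matrix.mul_one, Matrix.mul_assoc P γ β, hb2, Matrix.mul_one, hPQ]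
  have hval : (gdet S k Γ).val (P * β * Q) = (gdet S k Γ).val β :=
    (gdet S k Γ).val_conj hPQ hQP hβ
  rw [← hval]
  have hB : Blk ρ (P * β * Q) := blk_of_grd hρ hρρ hβ'
  have hC : Blk ρ (P * γ * Q) := blk_of_grd hρ hρρ hγ'
  refine hB.val_mem hC hm1 hm2 _ _ fun r => ?_
  -- one block
  have key : ∀ M : Matrix J J (LG k Γ), Grd (fun j => dg (ρ j)) (fun j => dg (ρ j)) M →
      Blk ρ M → ∀ i j h, (cut ρ {r} M i j).coeff h ≠ 0 → h • dg r = dg r := by
    intro M hM hMb i j h hh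
    by_cases hi : ρ i ∈ ({r} : Finset J)
    · rw [cut_pos hi] at hh
      have h3 : dg (ρ i) = h • dg (ρ j) := hM i j h hh
      have h4 : ρ i = ρ j := by
        by_contra hc
        rw [hMb i j hc] at hh
        exact hh rfl
      have h5 := Finset.mem_singleton.1 hi
      rw [← h4, h5] at h3
      exact h3.symm
    · rw [cut_neg hi] at hh
      by_cases hij : i = j
      · subst hij
        rw [Matrix.one_apply_eq, MonoidAlgebra.one_def] at hh
        rw [coeff_single_ne hh, one_smul]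
      · rw [Matrix.one_apply_ne hij] at hh
        exact absurd rfl hh
  obtain ⟨M₀, hM₀⟩ := exists_stab (dg r) (key _ hβ' hB)
  obtain ⟨N₀, hN₀⟩ := exists_stab (dg r) (key _ hγ' hC)
  have e1 : M₀ * N₀ = 1 := by
    refine map_sub_inj (dg r) ?_
    rw [Matrix.map_mul, hM₀, hN₀, cut_mul _ hB, hm1, cut_one,
      Matrix.map_one _ (map_zero _) (map_one _)]
  have e2 : N₀ * M₀ = 1 := by
    refine map_sub_inj (dg r) ?_
    rw [Matrix.map_mul, hM₀, hN₀, cut_mul _ hC, hm2, cut_one,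
      Matrix.map_one _ (map_zero _) (map_one _)]
  refine AddSubgroup.mem_iSup_of_mem r ?_
  rw [← hM₀, gdet_group S _ M₀ (isUnit_of_mul e1 e2)]
  exact ⟨_, rfl⟩

end Pool.Agent.NegK.TW.H72
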