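import Pool.Agent.Lib.MP_28303a_al.TW.H72.Sect

/-! # GRID -/

set_option autoImplicit false
set_option linter.unusedSectionVars false
set_option linter.unusedVariables false

namespace Pool.Agent.NegK.TW.H72

universe u v w

open Matrix MonoidAlgebra

section sig

variable {J : Type} [Fintype J] [DecidableEq J]

/-- The indices of the block `r`. -/
abbrev Ix (ρ : J → J) (n n' : ℕ) (r : J) : Type := {j // ρ j = r} ⊕ (Fin n ⊕ Fin n')

/-- The blocks. -/
def sig (ρ : J → J) (n n' : ℕ) :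
    J ⊕ ((J × Fin n) ⊕ (J × Fin n')) ≃ Σ r : J, Ix ρ n n' r where
  toFun := Sum.elim (fun j => ⟨ρ j, Sum.inl ⟨j, rfl⟩⟩)
    (Sum.elim (fun p => ⟨p.1, Sum.inr (Sum.inl p.2)⟩) (fun p => ⟨p.1, Sum.inr (Sum.inr p.2)⟩))
  invFun x := match x with
    | ⟨_, Sum.inl j⟩ => Sum.inl j.1
    | ⟨r, Sum.inr (Sum.inl a)⟩ => Sum.inr (Sum.inl (r, a))
    | ⟨r, Sum.inr (Sum.inr b)⟩ => Sum.inr (Sum.inr (r, b))
  left_inv x := by
    rcases x with j | (p | p) <;> rfl
  right_inv x := by
    rcases x with ⟨r, (⟨j, rfl⟩ | (a | b))⟩ <;> rfl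

theorem sig_inl {ρ : J → J} {n n' : ℕ} (j r : J) (h : ρ j = r) :
    sig ρ n n' (Sum.inl j) = ⟨r, Sum.inl ⟨j, h⟩⟩ := by
  subst h
  rfl

theorem sig_inrl {ρ : J → J} {n n' : ℕ} (r : J) (a : Fin n) :
    sig ρ n n' (Sum.inr (Sum.inl (r, a))) = ⟨r, Sum.inr (Sum.inl a)⟩ := rfl

theorem sig_inrr {ρ : J → J} {n n' : ℕ} (r : J) (a : Fin n') :
    sig ρ n n' (Sum.inr (Sum.inr (r, a))) = ⟨r, Sum.inr (Sum.inr a)⟩ := rfl

end sig

section asm

variable {k : Type u} [Ring k] {Γ : Type u} [Group Γ] {D : Type u} [MulAction Γ D]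
variable {J : Type} [Fintype J] [DecidableEq J] (dg : J → D) {ρ : J → J} {n n' : ℕ}

/-- Assemble a block diagonal matrix. -/
noncomputable def asm
    (M : ∀ r : J, Matrix (Ix ρ n n' r) (Ix ρ n n' r)
      (MonoidAlgebra k (MulAction.stabilizer Γ (dg r)))) :
    Matrix (J ⊕ ((J × Fin n) ⊕ (J × Fin n'))) (J ⊕ ((J × Fin n) ⊕ (J × Fin n')))
      (MonoidAlgebra k Γ) :=
  (Matrix.blockDiagonal' fun r => (M r).map (mdr k (MulAction.stabilizer Γ (dg r)).subtype)).submatrix
    (sig ρ n n') (sig ρ n n')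

variable {dg}

theorem asm_mul (M N : ∀ r : J, Matrix (Ix ρ n n' r) (Ix ρ n n' r)
      (MonoidAlgebra k (MulAction.stabilizer Γ (dg r)))) :
    asm dg M * asm dg N = asm dg (fun r => M r * N r) := by
  unfold asm
  rw [Matrix.submatrix_mul_equiv, ← Matrix.blockDiagonal'_mul]
  simp only [Matrix.map_mul]

theorem asm_one : asm dg (fun r => (1 : Matrix (Ix ρ n n' r) (Ix ρ n n' r)
      (MonoidAlgebra k (MulAction.stabilizer Γ (dg r))))) = 1 := by
  unfold asm
  have h1 : (fun r : J => (1 : Matrix (Ix ρ n n' r) (Ix ρ n n' r)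
      (MonoidAlgebra k (MulAction.stabilizer Γ (dg r)))).map
        (mdr k (MulAction.stabilizer Γ (dg r)).subtype)) = 1 := by
    funext r
    exact Matrix.map_one _ (map_zero _) (map_one _)
  rw [h1, Matrix.blockDiagonal'_one, Matrix.submatrix_one_equiv]

theorem mdr_cmap {k k' G H : Type u} [Ring k] [Ring k'] [Group G] [Group H] (φ : k →+* k')
    (f : G →* H) : (cmap H φ).comp (mdr k f) = (mdr k' f).comp (cmap G φ) := by
  refine MonoidAlgebra.ringHom_ext (fun r => ?_) (fun a => ?_)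
  · simp only [RingHom.comp_apply, mdr_single, cmap_single]
  · simp only [RingHom.comp_apply, mdr_single, cmap_single]

theorem asm_map {k' : Type u} [Ring k'] (f : k →+* k')
    (M : ∀ r : J, Matrix (Ix ρ n n' r) (Ix ρ n n' r)
      (MonoidAlgebra k (MulAction.stabilizer Γ (dg r)))) :
    (asm dg M).map (cmap Γ f) = asm dg (fun r => (M r).map (cmap _ f)) := by
  unfold asm
  rw [← Matrix.submatrix_map, Matrix.blockDiagonal'_map _ _ (map_zero _)]
  congr 2
  funext r
  rw [Matrix.map_map, Matrix.map_map]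
  congr 1
  funext x
  exact RingHom.congr_fun (mdr_cmap f (MulAction.stabilizer Γ (dg r)).subtype) x

theorem asm_apply {M : ∀ r : J, Matrix (Ix ρ n n' r) (Ix ρ n n' r)
      (MonoidAlgebra k (MulAction.stabilizer Γ (dg r)))}
    {x y : J ⊕ ((J × Fin n) ⊕ (J × Fin n'))} {r : J} {a b : Ix ρ n n' r}
    (hx : sig ρ n n' x = ⟨r, a⟩) (hy : sig ρ n n' y = ⟨r, b⟩) :
    asm dg M x y = mdr k (MulAction.stabilizer Γ (dg r)).subtype (M r a b) := by
  unfold asm
  rw [Matrix.submatrix_apply, hx, hy, Matrix.blockDiagonal'_apply_eq]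
  rfl

theorem asm_apply_ne {M : ∀ r : J, Matrix (Ix ρ n n' r) (Ix ρ n n' r)
      (MonoidAlgebra k (MulAction.stabilizer Γ (dg r)))}
    {x y : J ⊕ ((J × Fin n) ⊕ (J × Fin n'))} {r s : J} {a : Ix ρ n n' r} {b : Ix ρ n n' s}
    (hx : sig ρ n n' x = ⟨r, a⟩) (hy : sig ρ n n' y = ⟨s, b⟩) (h : r ≠ s) :
    asm dg M x y = 0 := by
  unfold asm
  rw [Matrix.submatrix_apply, hx, hy, Matrix.blockDiagonal'_apply_ne _ _ _ h]

theorem asm_grd (M : ∀ r : J, Matrix (Ix ρ n n' r) (Ix ρ n n' r)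
      (MonoidAlgebra k (MulAction.stabilizer Γ (dg r)))) :
    Grd (fun x => dg (sig ρ n n' x).1) (fun x => dg (sig ρ n n' x).1) (asm dg M) := by
  intro x y h hh
  show dg (sig ρ n n' x).1 = h • dg (sig ρ n n' y).1
  generalize hx : sig ρ n n' x = x' at hh ⊢
  generalize hy : sig ρ n n' y = y' at hh ⊢
  obtain ⟨r, a⟩ := x'
  obtain ⟨s, b⟩ := y'
  by_cases hrs : r = s
  · subst hrs
    rw [asm_apply hx hy] at hh
    obtain ⟨g, _, rfl⟩ := coeff_mdr_ne hh
    exact (g.2).symm
  · rw [asm_apply_ne hx hy hrs] at hh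
    exact absurd rfl hh

/-- The blocks of `M + 1 + 0`. -/
theorem asm_blocks {M : Matrix J J (MonoidAlgebra k Γ)} (hB : Blk ρ M)
    (e₁ : ∀ r : J, Matrix {j // ρ j = r} {j // ρ j = r}
      (MonoidAlgebra k (MulAction.stabilizer Γ (dg r))))
    (he₁ : ∀ r, (e₁ r).map (mdr _ (MulAction.stabilizer Γ (dg r)).subtype) =
        M.submatrix Subtype.val Subtype.val) :
    asm dg (fun r => (fromBlocks (e₁ r) 0 0
        (fromBlocks (1 : Matrix (Fin n) (Fin n) _) 0 0
          (0 : Matrix (Fin n') (Fin n') _)) : Matrix (Ix ρ n n' r) (Ix ρ n n' r)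
      (MonoidAlgebra k (MulAction.stabilizer Γ (dg r))))) =
        fromBlocks M 0 0 (fromBlocks 1 0 0 0) := by
  ext1 x y
  rcases x with i | (⟨r, a⟩ | ⟨r, a⟩)
  · rcases y with j | (⟨s, b⟩ | ⟨s, b⟩)
    · rw [Matrix.fromBlocks_apply₁₁]
      by_cases hij : ρ j = ρ i
      · rw [asm_apply (sig_inl i _ rfl) (sig_inl j _ hij)]
        exact congrFun (congrFun (he₁ (ρ i)) ⟨i, rfl⟩) ⟨j, hij⟩
      · rw [asm_apply_ne (sig_inl i _ rfl) (sig_inl j _ rfl) (Ne.symm hij),
          hB _ _ (Ne.symm hij)]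
    · rw [Matrix.fromBlocks_apply₁₂]
      by_cases hs : ρ i = s
      · rw [asm_apply (sig_inl i _ hs) (sig_inrl s b)]
        exact map_zero _
      · rw [asm_apply_ne (sig_inl i _ rfl) (sig_inrl s b) hs]
        rfl
    · rw [Matrix.fromBlocks_apply₁₂]
      by_cases hs : ρ i = s
      · rw [asm_apply (sig_inl i _ hs) (sig_inrr s b)]
        exact map_zero _
      · rw [asm_apply_ne (sig_inl i _ rfl) (sig_inrr s b) hs]
        rfl
  · rcases y with j | (⟨s, b⟩ | ⟨s, b⟩)
    · rw [Matrix.fromBlocks_apply₂₁]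
      by_cases hs : ρ j = r
      · rw [asm_apply (sig_inrl r a) (sig_inl j _ hs)]
        exact map_zero _
      · rw [asm_apply_ne (sig_inrl r a) (sig_inl j _ rfl) (Ne.symm hs)]
        rfl
    · rw [Matrix.fromBlocks_apply₂₂, Matrix.fromBlocks_apply₁₁]
      by_cases hs : r = s
      · subst hs
        rw [asm_apply (sig_inrl r a) (sig_inrl r b), Matrix.fromBlocks_apply₂₂,
            Matrix.fromBlocks_apply₁₁]
        by_cases hab : a = b
        · subst hab
          rw [Matrix.one_apply_eq, Matrix.one_apply_eq, map_one]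
        · rw [Matrix.one_apply_ne (fun h => hab (Prod.ext_iff.1 h).2), Matrix.one_apply_ne hab,
            map_zero]
      · rw [asm_apply_ne (sig_inrl r a) (sig_inrl s b) hs,
          Matrix.one_apply_ne (fun h => hs (Prod.ext_iff.1 h).1)]
    · rw [Matrix.fromBlocks_apply₂₂, Matrix.fromBlocks_apply₁₂]
      by_cases hs : r = s
      · subst hs
        rw [asm_apply (sig_inrl r a) (sig_inrr r b)]
        exact map_zero _
      · rw [asm_apply_ne (sig_inrl r a) (sig_inrr s b) hs]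
        rfl
  · rcases y with j | (⟨s, b⟩ | ⟨s, b⟩)
    · rw [Matrix.fromBlocks_apply₂₁]
      by_cases hs : ρ j = r
      · rw [asm_apply (sig_inrr r a) (sig_inl j _ hs)]
        exact map_zero _
      · rw [asm_apply_ne (sig_inrr r a) (sig_inl j _ rfl) (Ne.symm hs)]
        rfl
    · rw [Matrix.fromBlocks_apply₂₂, Matrix.fromBlocks_apply₂₁]
      by_cases hs : r = s
      · subst hs
        rw [asm_apply (sig_inrr r a) (sig_inrl r b)]
        exact map_zero _
      · rw [asm_apply_ne (sig_inrr r a) (sig_inrl s b) hs]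
        rfl
    · rw [Matrix.fromBlocks_apply₂₂, Matrix.fromBlocks_apply₂₂]
      by_cases hs : r = s
      · subst hs
        rw [asm_apply (sig_inrr r a) (sig_inrr r b)]
        exact map_zero _
      · rw [asm_apply_ne (sig_inrr r a) (sig_inrr s b) hs]
        rfl

end asm

section aux

variable {A : Type u} [Ring A] {J : Type} [Fintype J] [DecidableEq J]

/-- Blocks of products of block diagonal matrices. -/
theorem blk_sub_mul {ρ : J → J} {M : Matrix J J A} (hM : Blk ρ M) (N : Matrix J J A) (r : J) :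
    M.submatrix (Subtype.val : {j // ρ j = r} → J) (Subtype.val : {j // ρ j = r} → J) *
      N.submatrix (Subtype.val : {j // ρ j = r} → J) (Subtype.val : {j // ρ j = r} → J) =
    (M * N).submatrix (Subtype.val : {j // ρ j = r} → J) (Subtype.val : {j // ρ j = r} → J) := by
  ext1 i j
  rw [Matrix.submatrix_apply, Matrix.mul_apply, Matrix.mul_apply]
  simp only [Matrix.submatrix_apply]
  rw [← Finset.sum_subset (Finset.subset_univ (Finset.univ.filter fun l => ρ l = r))]
  · rw [← Finset.sum_subtype (Finset.univ.filter fun l => ρ l = r) (p := fun l => ρ l = r)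
      (fun l => by rw [Finset.mem_filter]; exact ⟨fun h => h.2, fun h => ⟨Finset.mem_univ _, h⟩⟩)
      (fun l => M i.1 l * N l j.1)]
  · intro l _ hl
    rw [hM i.1 l, zero_mul]
    intro hc
    rw [i.2] at hc
    exact hl (Finset.mem_filter.2 ⟨Finset.mem_univ _, hc.symm⟩)

variable {k : Type u} [Ring k] {Γ : Type u} [Group Γ] {X : Type} [Fintype X] [DecidableEq X]

theorem dgm_sum (g : J → Γ) (h : X → Γ) :
    dgm k (Sum.elim g h) = fromBlocks (dgm k g) 0 0 (dgm k h) := by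
  unfold dgm
  rw [Matrix.fromBlocks_diagonal]
  congr 1
  funext x
  rcases x with x | x <;> rfl

/-- Undo the conjugation. -/
theorem unconj (g : J → Γ) (e : Matrix J J (MonoidAlgebra k Γ)) (Y : Matrix X X (MonoidAlgebra k Γ)) :
    dgm k (Sum.elim g (fun _ => 1)) *
      fromBlocks (dgm k (fun j => (g j)⁻¹) * e * dgm k g) 0 0 Y *
      dgm k (fun x => (Sum.elim g (fun _ : X => (1 : Γ)) x)⁻¹) = fromBlocks e 0 0 Y := by
  have h1 : (fun x => (Sum.elim g (fun _ : X => (1 : Γ)) x)⁻¹) =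
      Sum.elim (fun j => (g j)⁻¹) (fun _ => 1) := by
    funext x
    rcases x with x | x
    · rfl
    · exact inv_one
  rw [h1, dgm_sum, dgm_sum, dgm_one, Matrix.fromBlocks_multiply, Matrix.fromBlocks_multiply]
  simp only [Matrix.zero_mul, Matrix.mul_zero, Matrix.one_mul, Matrix.mul_one, add_zero, zero_add]
  congr 1
  calc _ = (dgm k g * dgm k (fun j => (g j)⁻¹)) * e * (dgm k g * dgm k (fun j => (g j)⁻¹)) := by
        simp only [Matrix.mul_assoc]
    _ = e := by rw [dgm_mul_inv, Matrix.one_mul, Matrix.mul_one]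

theorem conj_mul (γ : X → Γ) (A B : Matrix X X (MonoidAlgebra k Γ)) :
    (dgm k γ * A * dgm k (fun x => (γ x)⁻¹)) * (dgm k γ * B * dgm k (fun x => (γ x)⁻¹)) =
      dgm k γ * (A * B) * dgm k (fun x => (γ x)⁻¹) := by
  calc _ = dgm k γ * A * (dgm k (fun x => (γ x)⁻¹) * dgm k γ) * B *
        dgm k (fun x => (γ x)⁻¹) := by simp only [Matrix.mul_assoc]
    _ = _ := by rw [dgm_inv_mul, Matrix.mul_one]; simp only [Matrix.mul_assoc]

theorem conj_one (γ : X → Γ) : dgm k γ * 1 * dgm k (fun x => (γ x)⁻¹) = 1 := by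
  rw [Matrix.mul_one, dgm_mul_inv]

end aux

theorem grid (h1 : GconjStatement.{u}) : GridStatement.{u} := by
  classical
  intro k Γ D _ _ _ J _ _ dg hnil e he hgr
  obtain ⟨ρ, g, hg, hρ, hρρ⟩ := exists_od (Γ := Γ) dg
  have hgi : ∀ j, (g j)⁻¹ • dg j = dg (ρ j) := fun j => by rw [← hg j, inv_smul_smul]
  obtain ⟨E, hEdef⟩ : ∃ E, E = dgm (LaurentPolynomial k) (fun j => (g j)⁻¹) * e *
      dgm (LaurentPolynomial k) g := ⟨_, rfl⟩
  have hE : Grd (fun j => dg (ρ j)) (fun j => dg (ρ j)) E := by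
    rw [hEdef]
    exact grd_conj hgi (fun j => (inv_inv _).symm) hgr
  have hEE : E * E = E := by
    rw [hEdef]
    calc _ = dgm (LaurentPolynomial k) (fun j => (g j)⁻¹) * e * (dgm (LaurentPolynomial k) g *
          dgm (LaurentPolynomial k) (fun j => (g j)⁻¹)) * e * dgm (LaurentPolynomial k) g := by
          simp only [Matrix.mul_assoc]
      _ = _ := by rw [dgm_mul_inv, Matrix.mul_one, Matrix.mul_assoc _ e e, he]
  have hB : Blk ρ E := blk_of_grd hρ hρρ hE
  -- the blocks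
  have hex : ∀ r : J, ∃ e₁ : Matrix {j // ρ j = r} {j // ρ j = r}
      (LG k (MulAction.stabilizer Γ (dg r))),
      e₁.map (mdr _ (MulAction.stabilizer Γ (dg r)).subtype) =
        E.submatrix Subtype.val Subtype.val := by
    intro r
    refine exists_stab (dg r) fun i j h hh => ?_
    have h3 : dg (ρ i.1) = h • dg (ρ j.1) := hE i.1 j.1 h hh
    rw [i.2, j.2] at h3
    exact h3.symm
  choose e₁ he₁ using hex
  have hid : ∀ r, e₁ r * e₁ r = e₁ r := by
    intro r
    refine map_sub_inj (dg r) ?_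
    rw [Matrix.map_mul, he₁, blk_sub_mul hB, hEE]
  choose N hN using fun r => h1 _ _ (cC k (MulAction.stabilizer Γ (dg r))) (hnil r)
    {j // ρ j = r} (e₁ r) (hid r)
  have hle : ∀ r, N r ≤ ∑ r, N r := fun r =>
    Finset.single_le_sum (f := N) (fun _ _ => Nat.zero_le _) (Finset.mem_univ r)
  obtain ⟨n, hn⟩ : ∃ n, n = ∑ r, N r := ⟨_, rfl⟩
  rw [← hn] at hle
  obtain ⟨n', hn'⟩ : ∃ n', n' = n + n := ⟨_, rfl⟩
  choose e₀ U W h₀ hUW hWU hfin using fun r => hN r n n' (hle r) (by have := hle r; omega)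
  have hγ : ∀ x, (Sum.elim g (fun _ => 1) x : Γ) • dg (sig ρ n n' x).1 =
      Sum.elim dg (Sum.elim (fun p : J × Fin n => dg p.1) (fun p : J × Fin n' => dg p.1)) x := by
    intro x
    rcases x with j | (p | p)
    · exact hg j
    · exact one_smul _ _
    · exact one_smul _ _
  obtain ⟨γ, hγdef⟩ : ∃ γ : J ⊕ ((J × Fin n) ⊕ (J × Fin n')) → Γ,
    γ = Sum.elim g (fun _ => 1) := ⟨_, rfl⟩
  -- the blocks of `e + 1 + 0`
  have hmain : dgm (LaurentPolynomial k) γ * asm dg (fun r => (fromBlocks (e₁ r) 0 0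
        (fromBlocks (1 : Matrix (Fin n) (Fin n) _) 0 0
          (0 : Matrix (Fin n') (Fin n') _)) : Matrix (Ix ρ n n' r) (Ix ρ n n' r)
      (LG k (MulAction.stabilizer Γ (dg r))))) *
      dgm (LaurentPolynomial k) (fun x => (γ x)⁻¹) =
      fromBlocks e 0 0 (fromBlocks 1 0 0 0) := by
    rw [asm_blocks hB e₁ he₁, hEdef, hγdef]
    exact unconj g e _
  rw [← hγdef] at hγ
  refine ⟨J × Fin n, J × Fin n', inferInstance, inferInstance, inferInstance, inferInstance,
    _, _, dgm k γ * asm dg e₀ * dgm k (fun x => (γ x)⁻¹),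
    dgm _ γ * asm dg U * dgm _ (fun x => (γ x)⁻¹),
    dgm _ γ * asm dg W * dgm _ (fun x => (γ x)⁻¹), grd_conj hγ (fun _ => rfl) (asm_grd U), ?_, ?_, ?_⟩
  · rw [conj_mul, asm_mul]
    have : (fun r => U r * W r) = fun r => 1 := funext hUW
    rw [this, asm_one, conj_one]
  · rw [conj_mul, asm_mul]
    have : (fun r => W r * U r) = fun r => 1 := funext hWU
    rw [this, asm_one, conj_one]
  · rw [← hmain, conj_mul, conj_mul, asm_mul, asm_mul]
    have : (fun r => U r * fromBlocks (e₁ r) 0 0 (fromBlocks (1 : Matrix (Fin n) (Fin n) _) 0 0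
        (0 : Matrix (Fin n') (Fin n') _)) * W r) =
        fun r => (e₀ r).map (cC k (MulAction.stabilizer Γ (dg r))) := funext hfin
    rw [this, Matrix.map_mul, Matrix.map_mul, dgm_map, dgm_map, asm_map]

end Pool.Agent.NegK.TW.H72
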