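import Pool.Agent.Lib.MP_28303a_al.TW.Lemmas

/-! # LAMG -/

set_option autoImplicit false
set_option linter.unusedSectionVars false
set_option linter.unusedVariables false

namespace Pool.Agent.NegK.TW.H72

universe u v w

open Matrix MonoidAlgebra

/-- The evaluation at `s = 1`. -/
noncomputable def ev1 (k : Type u) [Ring k] : LaurentPolynomial k →+* k :=
  AddMonoidAlgebra.liftNCRingHom (RingHom.id k) (1 : Multiplicative ℤ →* k)
    (fun _ _ => Commute.one_right _)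

theorem ev1_C {k : Type u} [Ring k] (r : k) : ev1 k (LaurentPolynomial.C r) = r := by
  unfold ev1 LaurentPolynomial.C
  show AddMonoidAlgebra.liftNC _ _ (AddMonoidAlgebra.single 0 r) = r
  rw [AddMonoidAlgebra.liftNC_single]
  simp

section nat

variable {k k' : Type u} [Ring k] [Ring k'] {Γ : Type u} [Group Γ]
variable {D D' : Type u} [MulAction Γ D] [MulAction Γ D'] {J J' : Type}

theorem fil_map (f : k →+* k') (S : Set Γ) (x : MonoidAlgebra k Γ) :
    fil S (cmap Γ f x) = cmap Γ f (fil S x) := by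
  ext g
  by_cases hg : g ∈ S
  · rw [fil_pos hg, MonoidAlgebra.coeff_mapRingHom, MonoidAlgebra.coeff_mapRingHom, fil_pos hg]
  · rw [fil_neg hg, MonoidAlgebra.coeff_mapRingHom, fil_neg hg, map_zero]

theorem part_map (f : k →+* k') (dg : J → D) (dg' : J' → D') (R : D → D' → Prop)
    (M : Matrix J J' (MonoidAlgebra k Γ)) :
    part dg dg' R (M.map (cmap Γ f)) = (part dg dg' R M).map (cmap Γ f) := by
  ext1 i j
  exact fil_map f _ _

end nat

section tree

variable {k k' : Type u} [Ring k] [Ring k'] {Γ V E : Type u} [Group Γ] [MulAction Γ V]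
  [MulAction Γ E] (T : OTree Γ V E) {JE JF JX : Type} [Fintype JE] [DecidableEq JE] [Fintype JF]
  [DecidableEq JF] [Fintype JX] [DecidableEq JX] (dE : JE → E) (dF : JF → V) (dX : JX → V)
  (δ : Matrix JE JX (MonoidAlgebra k Γ)) (w : Matrix JF JX (MonoidAlgebra k Γ))
  (q : Matrix JX JE (MonoidAlgebra k Γ)) (r : Matrix JX JF (MonoidAlgebra k Γ)) (f : k →+* k')

theorem dT_map : T.dT dE dX (δ.map (cmap Γ f)) = (T.dT dE dX δ).map (cmap Γ f) := part_map f _ _ _ _

theorem dO_map : T.dO dE dX (δ.map (cmap Γ f)) = (T.dO dE dX δ).map (cmap Γ f) := part_map f _ _ _ _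

theorem qT_map : T.qT dE dX (q.map (cmap Γ f)) = (T.qT dE dX q).map (cmap Γ f) := part_map f _ _ _ _

theorem qO_map : T.qO dE dX (q.map (cmap Γ f)) = (T.qO dE dX q).map (cmap Γ f) := part_map f _ _ _ _

theorem rG_map : rG dF dX (r.map (cmap Γ f)) = (rG dF dX r).map (cmap Γ f) := part_map f _ _ _ _

theorem pE_map : T.pE dE dX (δ.map (cmap Γ f)) (q.map (cmap Γ f)) =
    (T.pE dE dX δ q).map (cmap Γ f) := by
  unfold OTree.pE
  rw [dT_map, ← Matrix.map_mul, part_map]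

theorem ds_map : T.ds dE dX (δ.map (cmap Γ f)) (q.map (cmap Γ f)) =
    (T.ds dE dX δ q).map (cmap Γ f) := by
  have h1 : (1 : Matrix JE JE (MonoidAlgebra k Γ)).map (cmap Γ f) = 1 :=
    Matrix.map_one _ (map_zero _) (map_one _)
  unfold OTree.ds
  rw [pE_map, dT_map, dO_map, Matrix.map_add _ (fun a b => map_add _ a b), Matrix.map_mul,
    Matrix.map_mul, Matrix.map_sub _ (fun a b => map_sub _ a b), h1]

theorem tlin_map {δ w q r} (h : TLin T dE dF dX δ w q r) :
    TLin T dE dF dX (δ.map (cmap Γ f)) (w.map (cmap Γ f)) (q.map (cmap Γ f))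
      (r.map (cmap Γ f)) := by
  have hE : (1 : Matrix JE JE (MonoidAlgebra k Γ)).map (cmap Γ f) = 1 :=
    Matrix.map_one _ (map_zero _) (map_one _)
  have hF : (1 : Matrix JF JF (MonoidAlgebra k Γ)).map (cmap Γ f) = 1 :=
    Matrix.map_one _ (map_zero _) (map_one _)
  have hX : (1 : Matrix JX JX (MonoidAlgebra k Γ)).map (cmap Γ f) = 1 :=
    Matrix.map_one _ (map_zero _) (map_one _)
  refine ⟨h.sδ.map f, h.sw.map f, ?_, ?_, ?_, ?_, ?_⟩
  · rw [← Matrix.map_mul, h.δq, hE]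
  · rw [← Matrix.map_mul, h.δr, Matrix.map_zero _ (map_zero _)]
  · rw [← Matrix.map_mul, h.wq, Matrix.map_zero _ (map_zero _)]
  · rw [← Matrix.map_mul, h.wr, hF]
  · rw [← Matrix.map_mul, ← Matrix.map_mul, ← Matrix.map_add _ (fun a b => map_add _ a b), h.qδ,
      hX]

/-- The two rectangular inverse matrices. -/
theorem lam_rect (hL : T.ds dE dX δ q * (T.qT dE dX q + T.qO dE dX q) = 1 ∧
    T.ds dE dX δ q * rG dF dX r = 0 ∧
    w * (T.qT dE dX q + T.qO dE dX q) = 0 ∧ w * rG dF dX r = 1 ∧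
    (T.qT dE dX q + T.qO dE dX q) * T.ds dE dX δ q + rG dF dX r * w = 1) :
    fromRows (T.ds dE dX δ q) w * fromCols (T.qT dE dX q + T.qO dE dX q) (rG dF dX r) =
      (1 : Matrix (JE ⊕ JF) (JE ⊕ JF) (MonoidAlgebra k Γ)) ∧
    fromCols (T.qT dE dX q + T.qO dE dX q) (rG dF dX r) * fromRows (T.ds dE dX δ q) w =
      (1 : Matrix JX JX (MonoidAlgebra k Γ)) := by
  obtain ⟨h1, h2, h3, h4, h5⟩ := hL
  constructor
  · rw [Matrix.fromRows_mul_fromCols, h1, h2, h3, h4, Matrix.fromBlocks_one]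
  · rw [Matrix.fromCols_mul_fromRows, h5]

end tree

theorem invar_vt {Γ V E : Type u} [Group Γ] [MulAction Γ V] [MulAction Γ E] (T : OTree Γ V E) :
    Invar Γ (fun (e : E) (v : V) => v = T.t e) := by
  rintro g e v rfl
  exact (T.t_smul g e).symm

theorem invar_vo {Γ V E : Type u} [Group Γ] [MulAction Γ V] [MulAction Γ E] (T : OTree Γ V E) :
    Invar Γ (fun (e : E) (v : V) => v = T.o e) := by
  rintro g e v rfl
  exact (T.o_smul g e).symm

theorem fac {A : Type u} [Ring A] {ι κ : Type} [Fintype ι] [DecidableEq ι] [Fintype κ]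
    [DecidableEq κ] (X : Matrix ι κ A) (Y : Matrix κ ι A) {L M : Matrix ι κ A}
    {L' M' : Matrix κ ι A} (h1 : L' * L = 1) (h2 : M' * M = 1) :
    X * Y = (X * L') * (L * M') * (M * Y) := by
  have e1 : (X * L') * (L * M') * (M * Y) = X * (L' * L) * ((M' * M) * Y) := by
    simp only [Matrix.mul_assoc]
  rw [e1, h1, h2, Matrix.mul_one, Matrix.one_mul]

theorem lamg (hlam : LamStatement.{u}) (hnud : NudStatement.{u}) (hrect : RectStatement.{u})
    (hgr : GrStatement.{u}) : LamgStatement.{u} := by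
  intro S k Γ V E _ _ _ _ T JE JF JX _ _ _ _ _ _ dE dF dX δ w q r hT C C' hC hC' π₀ hπ
  obtain ⟨f, hf⟩ : ∃ f : LaurentPolynomial k →+* LaurentPolynomial k,
    f = (LaurentPolynomial.C : k →+* LaurentPolynomial k).comp (ev1 k) := ⟨_, rfl⟩
  have hcomp : ∀ x : LG k Γ, cmap Γ f x = cC k Γ (cmap Γ (ev1 k) x) := by
    intro x
    have h1 : cmap Γ f = (cC k Γ).comp (cmap Γ (ev1 k)) := by
      refine MonoidAlgebra.ringHom_ext (fun r => ?_) (fun a => ?_)
      · simp only [RingHom.comp_apply, cmap_single, hf]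
      · simp only [RingHom.comp_apply, cmap_single, map_one, hf]
    rw [h1]
    rfl
  have hcst : ∀ x : MonoidAlgebra k Γ, cmap Γ (ev1 k) (cC k Γ x) = x := by
    intro x
    have h1 : (cmap Γ (ev1 k)).comp (cC k Γ) = RingHom.id _ := by
      refine MonoidAlgebra.ringHom_ext (fun r => ?_) (fun a => ?_)
      · simp only [RingHom.comp_apply, cmap_single, ev1_C, RingHom.id_apply]
      · simp only [RingHom.comp_apply, cmap_single, ev1_C, RingHom.id_apply]
    exact RingHom.congr_fun h1 x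
  have hT1 := tlin_map T dE dF dX f hT
  obtain ⟨L0, L1, L2, L3, L4, L5, L6, L7⟩ := hlam _ Γ V E T JE JF JX dE dF dX δ w q r hT
  obtain ⟨M0, M1, M2, M3, M4, M5, M6, M7⟩ := hlam _ Γ V E T JE JF JX dE dF dX _ _ _ _ hT1
  have hπ1 : T.pE dE dX (δ.map (cmap Γ f)) (q.map (cmap Γ f)) = T.pE dE dX δ q := by
    rw [pE_map, hπ, Matrix.map_map]
    ext1 i j
    show cmap Γ f (cC k Γ (π₀ i j)) = cC k Γ (π₀ i j)
    rw [hcomp, hcst]
  obtain ⟨R1, R2⟩ := lam_rect T dE dF dX δ w q r ⟨L1, L2, L3, L4, L5⟩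
  obtain ⟨Q1, Q2⟩ := lam_rect T dE dF dX _ _ _ _ ⟨M1, M2, M3, M4, M5⟩
  obtain ⟨_, hN⟩ := hnud _ Γ V E T JE JF JX dE dF dX δ w q r hT
  obtain ⟨hN1, hN2⟩ := hN _ (gdet S k Γ)
  obtain ⟨_, hR1, hR2, hR3⟩ := hrect _ _ (gdet S k Γ) (JE ⊕ JF) JX _ _ _ _ R1 R2 Q1 Q2
  -- the graded matrix
  have hG : fromCols (T.qT dE dX (q.map (cmap Γ f)) + T.qO dE dX (q.map (cmap Γ f)))
      (rG dF dX (r.map (cmap Γ f))) * fromRows (T.ds dE dX δ q) w =
      T.qT dE dX (q.map (cmap Γ f)) * T.dT dE dX δ + T.qO dE dX (q.map (cmap Γ f)) * T.dO dE dX δ +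
        rG dF dX (r.map (cmap Γ f)) * w := by
    rw [Matrix.fromCols_mul_fromRows]
    congr 1
    unfold OTree.ds
    rw [← hπ1, Matrix.add_mul, Matrix.mul_add, Matrix.mul_add, ← Matrix.mul_assoc,
      ← Matrix.mul_assoc, ← Matrix.mul_assoc, ← Matrix.mul_assoc, Matrix.mul_sub, Matrix.mul_sub,
      M6, M7, Matrix.mul_one, Matrix.mul_one, sub_self, Matrix.zero_mul, Matrix.zero_mul, sub_zero,
      add_zero, zero_add]
  have hgrd : Grd dX dX (T.qT dE dX (q.map (cmap Γ f)) * T.dT dE dX δ +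
      T.qO dE dX (q.map (cmap Γ f)) * T.dO dE dX δ + rG dF dX (r.map (cmap Γ f)) * w) := by
    refine Sup.add (Sup.add ?_ ?_) ?_
    · exact Sup.mul (invar_vt T) (fun a b c h1 h2 => h1.trans h2.symm)
        (sup_part _ _ _ _) (sup_part _ _ _ _)
    · exact Sup.mul (invar_vo T) (fun a b c h1 h2 => h1.trans h2.symm)
        (sup_part _ _ _ _) (sup_part _ _ _ _)
    · exact Grd.mul (sup_part _ _ _ _) hT.sw
  have hmem := hgr S k Γ V JX dX _ (hG ▸ hR2) hgrd
  -- the constant matrix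
  have hconst : IsUnit (fromRows (T.ds dE dX (δ.map (cmap Γ f)) (q.map (cmap Γ f)))
      (w.map (cmap Γ f)) * C.map (cC k Γ)) ∧
      (gdet S k Γ).val (fromRows (T.ds dE dX (δ.map (cmap Γ f)) (q.map (cmap Γ f)))
        (w.map (cmap Γ f)) * C.map (cC k Γ)) = 0 := by
    have e1 : fromRows (T.ds dE dX (δ.map (cmap Γ f)) (q.map (cmap Γ f))) (w.map (cmap Γ f)) =
        ((fromRows (T.ds dE dX δ q) w).map (cmap Γ (ev1 k))).map (cC k Γ) := by
      rw [ds_map, Matrix.map_map]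
      ext1 i j
      rcases i with i | i
      · exact hcomp _
      · exact hcomp _
    have e2 : (fromRows (T.ds dE dX δ q) w).map (cmap Γ (ev1 k)) * C *
        (C' * (fromCols (T.qT dE dX q + T.qO dE dX q) (rG dF dX r)).map (cmap Γ (ev1 k))) = 1 := by
      rw [Matrix.mul_assoc, ← Matrix.mul_assoc C, hC, Matrix.one_mul, ← Matrix.map_mul, R1,
        Matrix.map_one _ (map_zero _) (map_one _)]
    have e3 : (C' * (fromCols (T.qT dE dX q + T.qO dE dX q) (rG dF dX r)).map (cmap Γ (ev1 k))) *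
        ((fromRows (T.ds dE dX δ q) w).map (cmap Γ (ev1 k)) * C) = 1 := by
      rw [Matrix.mul_assoc, ← Matrix.mul_assoc (Matrix.map _ _), ← Matrix.map_mul, R2,
        Matrix.map_one _ (map_zero _) (map_one _), Matrix.one_mul, hC']
    have e4 := isUnit_of_mul e2 e3
    rw [e1, ← Matrix.map_mul]
    exact ⟨e4.map (cC k Γ).mapMatrix, gdet_const S _ e4⟩
  have hfac : fromRows δ w * C.map (cC k Γ) =
      (fromRows δ w * fromCols (T.qT dE dX q + T.qO dE dX q) (rG dF dX r)) *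
      (fromRows (T.ds dE dX δ q) w *
        fromCols (T.qT dE dX (q.map (cmap Γ f)) + T.qO dE dX (q.map (cmap Γ f)))
          (rG dF dX (r.map (cmap Γ f)))) *
      (fromRows (T.ds dE dX (δ.map (cmap Γ f)) (q.map (cmap Γ f))) (w.map (cmap Γ f)) *
        C.map (cC k Γ)) := by
    exact fac _ _ R2 Q2
  rw [hfac, (gdet S k Γ).mul _ _ (hN1.mul hR1) hconst.1, (gdet S k Γ).mul _ _ hN1 hR1, hN2,
    hconst.2, hR3, add_zero, add_sub_cancel_left, hG]
  exact hmem

end Pool.Agent.NegK.TW.H72
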