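import Pool.Agent.Lib.MP_28303a_al.TW.Lemmas

/-! # Conjugation to the stabilizers and restriction to blocks (common lemmas of GR and GRID) -/

set_option autoImplicit false
set_option linter.unusedSectionVars false
set_option linter.unusedVariables false

namespace Pool.Agent.NegK.TW.H72

universe u v w

open Matrix MonoidAlgebra

section dgm

variable {k : Type u} [Ring k] {Γ : Type u} [Group Γ] {X : Type} [Fintype X] [DecidableEq X]

/-- The diagonal matrix of group elements. -/
noncomputable def dgm (k : Type u) [Ring k] {Γ : Type u} [Group Γ] {X : Type} [DecidableEq X]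
    (g : X → Γ) : Matrix X X (MonoidAlgebra k Γ) := Matrix.diagonal fun x => single (g x) (1 : k)

theorem dgm_mul (g h : X → Γ) : dgm k g * dgm k h = dgm k (fun x => g x * h x) := by
  unfold dgm
  rw [Matrix.diagonal_mul_diagonal]
  simp only [MonoidAlgebra.single_mul_single, one_mul]

theorem dgm_one : dgm k (fun _ : X => (1 : Γ)) = 1 := Matrix.diagonal_one

theorem dgm_mul_inv (g : X → Γ) : dgm k g * dgm k (fun x => (g x)⁻¹) = 1 := by
  rw [dgm_mul]
  simp only [mul_inv_cancel]
  exact dgm_one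

theorem dgm_inv_mul (g : X → Γ) : dgm k (fun x => (g x)⁻¹) * dgm k g = 1 := by
  rw [dgm_mul]
  simp only [inv_mul_cancel]
  exact dgm_one

theorem dgm_conj_apply (g h : X → Γ) (M : Matrix X X (MonoidAlgebra k Γ)) (x y : X) :
    (dgm k g * M * dgm k h) x y = single (g x) 1 * M x y * single (h y) 1 := by
  unfold dgm
  rw [Matrix.mul_diagonal, Matrix.diagonal_mul]

theorem dgm_map {k' : Type u} [Ring k'] (f : k →+* k') (g : X → Γ) :
    (dgm k g).map (cmap Γ f) = dgm k' g := by
  unfold dgm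
  rw [Matrix.diagonal_map (map_zero _)]
  simp only [cmap_single, map_one]

theorem coeff_conj_ne {a b h : Γ} {x : MonoidAlgebra k Γ}
    (hc : (single a 1 * x * single b 1).coeff h ≠ 0) : x.coeff (a⁻¹ * h * b⁻¹) ≠ 0 := by
  obtain ⟨c, d, h1, h2, rfl⟩ := coeff_mul_ne_zero hc
  obtain ⟨e, f, h3, h4, rfl⟩ := coeff_mul_ne_zero h1
  rw [coeff_single_ne h3, coeff_single_ne h2]
  have : a⁻¹ * (a * f * b) * b⁻¹ = f := by group
  rwa [this]

variable {D : Type u} [MulAction Γ D]

/-- Conjugation of graded matrices. -/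
theorem grd_conj {d b : X → D} {g g' : X → Γ} (hg : ∀ x, g x • b x = d x)
    (hg' : ∀ x, g' x = (g x)⁻¹) {M : Matrix X X (MonoidAlgebra k Γ)} (hM : Grd b b M) :
    Grd d d (dgm k g * M * dgm k g') := by
  intro x y h hh
  rw [dgm_conj_apply] at hh
  have h1 := hM x y _ (coeff_conj_ne hh)
  rw [hg', inv_inv] at h1
  have h2 : d x = g x • (((g x)⁻¹ * h * g y) • b y) := by rw [← h1, hg]
  rw [h2, ← mul_smul, ← mul_assoc, ← mul_assoc, mul_inv_cancel, one_mul, mul_smul, hg]

end dgm

section cut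

variable {A : Type u} [Ring A] {J : Type} [Fintype J] [DecidableEq J]

open Classical in
/-- The matrix which is `M` on the rows in `F` and `1` elsewhere. -/
noncomputable def cut (ρ : J → J) (F : Finset J) (M : Matrix J J A) : Matrix J J A :=
  fun i j => if ρ i ∈ F then M i j else (1 : Matrix J J A) i j

/-- The matrix is block diagonal for `ρ`. -/
def Blk (ρ : J → J) (M : Matrix J J A) : Prop := ∀ i j, ρ i ≠ ρ j → M i j = 0

theorem cut_pos {ρ : J → J} {F : Finset J} {M : Matrix J J A} {i : J} (h : ρ i ∈ F) (j : J) :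
    cut ρ F M i j = M i j := by
  classical
  exact if_pos h

theorem cut_neg {ρ : J → J} {F : Finset J} {M : Matrix J J A} {i : J} (h : ρ i ∉ F) (j : J) :
    cut ρ F M i j = (1 : Matrix J J A) i j := by
  classical
  exact if_neg h

theorem cut_mul {ρ : J → J} (F : Finset J) {M N : Matrix J J A} (hM : Blk ρ M) :
    cut ρ F M * cut ρ F N = cut ρ F (M * N) := by
  ext1 i j
  by_cases hi : ρ i ∈ F
  · rw [cut_pos hi, Matrix.mul_apply, Matrix.mul_apply]
    refine Finset.sum_congr rfl fun l _ => ?_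
    rw [cut_pos hi]
    by_cases hl : ρ i = ρ l
    · rw [cut_pos (hl ▸ hi)]
    · rw [hM i l hl, zero_mul, zero_mul]
  · rw [cut_neg hi, Matrix.mul_apply, Finset.sum_eq_single i]
    · rw [cut_neg hi, cut_neg hi, Matrix.one_apply_eq, one_mul]
    · intro l _ hl
      rw [cut_neg hi, Matrix.one_apply_ne (Ne.symm hl), zero_mul]
    · intro h
      exact absurd (Finset.mem_univ i) h

theorem cut_one (ρ : J → J) (F : Finset J) : cut ρ F (1 : Matrix J J A) = 1 := by
  ext1 i j
  by_cases hi : ρ i ∈ F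
  · rw [cut_pos hi]
  · rw [cut_neg hi]

theorem cut_empty (ρ : J → J) (M : Matrix J J A) : cut ρ ∅ M = 1 := by
  ext1 i j
  exact cut_neg (Finset.notMem_empty _) j

theorem cut_univ (ρ : J → J) (M : Matrix J J A) : cut ρ Finset.univ M = M := by
  ext1 i j
  exact cut_pos (Finset.mem_univ _) j

theorem cut_insert {ρ : J → J} {F : Finset J} {r : J} (hr : r ∉ F) {M : Matrix J J A}
    (hM : Blk ρ M) : cut ρ (insert r F) M = cut ρ F M * cut ρ {r} M := by
  ext1 i j
  rw [Matrix.mul_apply]
  by_cases hi : ρ i ∈ F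
  · rw [cut_pos (Finset.mem_insert_of_mem hi), Finset.sum_eq_single j]
    · rw [cut_pos hi]
      by_cases hj : ρ i = ρ j
      · rw [cut_neg (fun h => hr (by rw [← Finset.mem_singleton.1 h, ← hj]; exact hi)),
          Matrix.one_apply_eq, mul_one]
      · rw [hM i j hj, zero_mul]
    · intro l _ hl
      rw [cut_pos hi]
      by_cases hj : ρ i = ρ l
      · rw [cut_neg (fun h => hr (by rw [← Finset.mem_singleton.1 h, ← hj]; exact hi)),
          Matrix.one_apply_ne hl, mul_zero]
      · rw [hM i l hj, zero_mul]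
    · intro h
      exact absurd (Finset.mem_univ j) h
  · rw [Finset.sum_eq_single i]
    · rw [cut_neg hi, Matrix.one_apply_eq, one_mul]
      by_cases hi' : ρ i = r
      · rw [cut_pos (Finset.mem_insert.2 (Or.inl hi')), cut_pos (Finset.mem_singleton.2 hi')]
      · rw [cut_neg (fun h => (Finset.mem_insert.1 h).elim hi' hi),
          cut_neg (fun h => hi' (Finset.mem_singleton.1 h))]
    · intro l _ hl
      rw [cut_neg hi, Matrix.one_apply_ne (Ne.symm hl), zero_mul]
    · intro h
      exact absurd (Finset.mem_univ i) h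

theorem Blk.isUnit_cut {ρ : J → J} {M N : Matrix J J A} (hM : Blk ρ M) (hN : Blk ρ N)
    (h1 : M * N = 1) (h2 : N * M = 1) (F : Finset J) : IsUnit (cut ρ F M) := by
  refine isUnit_of_mul (β := cut ρ F N) ?_ ?_
  · rw [cut_mul F hM, h1, cut_one]
  · rw [cut_mul F hN, h2, cut_one]

theorem Blk.isUnit_cut_mem {ρ : J → J} {M N : Matrix J J A} (hM : Blk ρ M) (hN : Blk ρ N)
    (h1 : M * N = 1) (h2 : N * M = 1) {G : Type v} [AddCommGroup G] (χ : Det1 A G)
    (P : AddSubgroup G) (hP : ∀ r, χ.val (cut ρ {r} M) ∈ P) (F : Finset J) :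
    χ.val (cut ρ F M) ∈ P := by
  induction F using Finset.induction_on with
  | empty => rw [cut_empty, χ.val_one]; exact P.zero_mem
  | insert r F hr ih =>
    rw [cut_insert hr hM, χ.mul _ _ (hM.isUnit_cut hN h1 h2 F) (hM.isUnit_cut hN h1 h2 _)]
    exact P.add_mem ih (hP r)

theorem Blk.val_mem {ρ : J → J} {M N : Matrix J J A} (hM : Blk ρ M) (hN : Blk ρ N)
    (h1 : M * N = 1) (h2 : N * M = 1) {G : Type v} [AddCommGroup G] (χ : Det1 A G)
    (P : AddSubgroup G) (hP : ∀ r, χ.val (cut ρ {r} M) ∈ P) : χ.val M ∈ P := by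
  have h := hM.isUnit_cut_mem hN h1 h2 χ P hP Finset.univ
  rwa [cut_univ] at h

end cut

section lift

variable {k : Type u} [Ring k] {Γ : Type u} [Group Γ] {D : Type u} [MulAction Γ D]
variable {J : Type} [Fintype J] [DecidableEq J]

theorem blk_of_grd {dg : J → D} {ρ : J → J} (hρ : ∀ i j (h : Γ), h • dg i = dg j → ρ i = ρ j)
    (hρρ : ∀ j, ρ (ρ j) = ρ j) {M : Matrix J J (MonoidAlgebra k Γ)}
    (hM : Grd (fun j => dg (ρ j)) (fun j => dg (ρ j)) M) : Blk ρ M := by
  intro i j hij
  by_contra hc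
  have h1 : ∃ h, (M i j).coeff h ≠ 0 := by
    by_contra h2
    push Not at h2
    refine hc ?_
    ext h
    exact h2 h
  obtain ⟨h, hh⟩ := h1
  have h2 : dg (ρ i) = h • dg (ρ j) := hM i j h hh
  have h3 := hρ _ _ _ h2.symm
  rw [hρρ, hρρ] at h3
  exact hij h3.symm

/-- Matrices over `k[stab]`. -/
theorem exists_stab {ι κ : Type} (c : D) {M : Matrix ι κ (MonoidAlgebra k Γ)}
    (hM : ∀ i j h, (M i j).coeff h ≠ 0 → h • c = c) :
    ∃ M₀ : Matrix ι κ (MonoidAlgebra k (MulAction.stabilizer Γ c)),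
      M₀.map (mdr k (MulAction.stabilizer Γ c).subtype) = M := by
  refine MSupp.exists_map (MulAction.stabilizer Γ c).subtype_injective fun i j h hh => ?_
  exact ⟨⟨h, hM i j h hh⟩, rfl⟩

theorem sub_inj (c : D) : Function.Injective (mdr k (MulAction.stabilizer Γ c).subtype) :=
  mdr_injective (MulAction.stabilizer Γ c).subtype_injective

theorem map_sub_inj {ι κ : Type} (c : D)
    {M N : Matrix ι κ (MonoidAlgebra k (MulAction.stabilizer Γ c))}
    (h : M.map (mdr k (MulAction.stabilizer Γ c).subtype) =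
      N.map (mdr k (MulAction.stabilizer Γ c).subtype)) : M = N :=
  Matrix.map_injective (sub_inj c) h

end lift

end Pool.Agent.NegK.TW.H72
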